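import Mathlib

/-!
The greedy sequence avoiding sums of two or three consecutive terms: definitions and
the elementary structure (complement of the range, gaps at most four).
-/

namespace Pool.Agent.helper93.GS

/-- `x` is forbidden by the terms `a 0, ..., a n`: it is a sum of two or of three
consecutive terms among them. -/
def Forbidden (a : ℕ → ℕ) (n x : ℕ) : Prop :=
  (∃ i, i + 1 ≤ n ∧ x = a i + a (i + 1)) ∨
    (∃ i, i + 2 ≤ n ∧ x = a i + a (i + 1) + a (i + 2))

/-- `a` is the greedy sequence (indexed from `0`): it starts with `1` and every further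
term is the least integer that exceeds the last term and is not forbidden. -/
def IsGreedy (a : ℕ → ℕ) : Prop :=
  a 0 = 1 ∧ ∀ n, IsLeast {x | a n < x ∧ ¬ Forbidden a n x} (a (n + 1))

/-- The counting function `A(x)`: the number of terms that are at most `x`. -/
noncomputable def count (a : ℕ → ℕ) (x : ℕ) : ℕ := {n : ℕ | a n ≤ x}.ncard

/-- `x` is a sum of two consecutive terms. -/
def S2 (a : ℕ → ℕ) (x : ℕ) : Prop := ∃ i, x = a i + a (i + 1)

/-- `x` is a sum of three consecutive terms. -/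
def S3 (a : ℕ → ℕ) (x : ℕ) : Prop := ∃ i, x = a i + a (i + 1) + a (i + 2)

/-! ### existence and uniqueness -/

/-- next term, given the function on `0, ..., n` -/
noncomputable def nxt (f : ℕ → ℕ) (n : ℕ) : ℕ := sInf {x | f n < x ∧ ¬ Forbidden f n x}

noncomputable def appr : ℕ → (ℕ → ℕ)
  | 0 => fun _ => 1
  | n + 1 => Function.update (appr n) (n + 1) (nxt (appr n) n)

noncomputable def gseq (n : ℕ) : ℕ := appr n n

lemma appr_eq {n m : ℕ} (h : n ≤ m) : appr m n = gseq n := by
  induction m, h using Nat.le_induction with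
  | base => rfl
  | succ m hm ih =>
    rw [← ih]
    show Function.update (appr m) (m + 1) (nxt (appr m) m) n = _
    rw [Function.update_of_ne (by omega)]

lemma forbidden_congr {f g : ℕ → ℕ} {n : ℕ} (h : ∀ i, i ≤ n → f i = g i) (x : ℕ) :
    Forbidden f n x ↔ Forbidden g n x := by
  unfold Forbidden
  constructor
  · rintro (⟨i, hi, hx⟩ | ⟨i, hi, hx⟩)
    · left; exact ⟨i, hi, by rw [hx, h i (by omega), h (i + 1) hi]⟩
    · right; exact ⟨i, hi, by rw [hx, h i (by omega), h (i + 1) (by omega), h (i + 2) hi]⟩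
  · rintro (⟨i, hi, hx⟩ | ⟨i, hi, hx⟩)
    · left; exact ⟨i, hi, by rw [hx, h i (by omega), h (i + 1) hi]⟩
    · right; exact ⟨i, hi, by rw [hx, h i (by omega), h (i + 1) (by omega), h (i + 2) hi]⟩

lemma exists_not_forbidden (f : ℕ → ℕ) (n : ℕ) : ∃ x, f n < x ∧ ¬ Forbidden f n x := by
  -- take a number larger than all sums
  set M := ∑ i ∈ Finset.range (n + 3), f i with hM
  have hle : ∀ i, i < n + 3 → f i ≤ M := fun i hi =>
    Finset.single_le_sum (f := f) (fun _ _ => Nat.zero_le _) (Finset.mem_range.2 hi)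
  refine ⟨3 * M + 1, by have := hle n (by omega); omega, ?_⟩
  rintro (⟨i, hi, hx⟩ | ⟨i, hi, hx⟩)
  · have h1 := hle i (by omega)
    have h2 := hle (i + 1) (by omega)
    omega
  · have h1 := hle i (by omega)
    have h2 := hle (i + 1) (by omega)
    have h3 := hle (i + 2) (by omega)
    omega

lemma gseq_isGreedy : IsGreedy gseq := by
  refine ⟨rfl, fun n => ?_⟩
  have h1 : gseq (n + 1) = nxt (appr n) n := by
    show appr (n + 1) (n + 1) = _
    show Function.update (appr n) (n + 1) (nxt (appr n) n) (n + 1) = _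
    rw [Function.update_self]
  have hc : ∀ i, i ≤ n → appr n i = gseq i := fun i hi => appr_eq hi
  have hset : {x | appr n n < x ∧ ¬ Forbidden (appr n) n x} =
      {x | gseq n < x ∧ ¬ Forbidden gseq n x} := by
    ext x
    simp only [Set.mem_ofPred_eq, forbidden_congr hc x]
    rfl
  rw [h1]
  unfold nxt
  rw [hset]
  have hne : {x | gseq n < x ∧ ¬ Forbidden gseq n x}.Nonempty := exists_not_forbidden gseq n
  exact ⟨Nat.sInf_mem hne, fun y hy => Nat.sInf_le hy⟩

lemma isGreedy_unique {a b : ℕ → ℕ} (ha : IsGreedy a) (hb : IsGreedy b) : a = b := by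
  have key : ∀ n, ∀ i, i ≤ n → a i = b i := by
    intro n
    induction n with
    | zero =>
      intro i hi
      have : i = 0 := by omega
      subst this
      rw [ha.1, hb.1]
    | succ n ih =>
      intro i hi
      rcases Nat.lt_or_ge i (n + 1) with h | h
      · exact ih i (by omega)
      · have : i = n + 1 := by omega
        subst this
        have h1 := ha.2 n
        have h2 := hb.2 n
        have hset : {x | a n < x ∧ ¬ Forbidden a n x} = {x | b n < x ∧ ¬ Forbidden b n x} := by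
          ext x
          simp only [Set.mem_ofPred_eq, forbidden_congr ih x, ih n le_rfl]
        rw [hset] at h1
        exact h1.unique h2
  funext n
  exact key n n le_rfl

/-! ### elementary properties -/

section
variable {a : ℕ → ℕ} (h : IsGreedy a)
include h

lemma lt_succ (n : ℕ) : a n < a (n + 1) := (h.2 n).1.1

lemma mono : StrictMono a := strictMono_nat_of_lt_succ (lt_succ h)

lemma pos (n : ℕ) : 1 ≤ a n := by
  have := (mono h).monotone (Nat.zero_le n)
  rw [h.1] at this
  exact this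

lemma not_S2 (k : ℕ) : ¬ S2 a (a k) := by
  rintro ⟨i, hi⟩
  have h1 := pos h i
  have hlt : a (i + 1) < a k := by omega
  have hik : i + 1 < k := (mono h).lt_iff_lt.1 hlt
  obtain ⟨j, rfl⟩ : ∃ j, k = j + 1 := ⟨k - 1, by omega⟩
  exact (h.2 j).1.2 (Or.inl ⟨i, by omega, hi⟩)

lemma not_S3 (k : ℕ) : ¬ S3 a (a k) := by
  rintro ⟨i, hi⟩
  have h1 := pos h i
  have h2 := pos h (i + 1)
  have hlt : a (i + 2) < a k := by omega
  have hik : i + 2 < k := (mono h).lt_iff_lt.1 hlt
  obtain ⟨j, rfl⟩ : ∃ j, k = j + 1 := ⟨k - 1, by omega⟩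
  exact (h.2 j).1.2 (Or.inr ⟨i, by omega, hi⟩)

lemma exists_between {x : ℕ} (hx : 1 ≤ x) : ∃ k, a k ≤ x ∧ x < a (k + 1) := by
  have hun : ∃ k, x < a k := ⟨x + 1, lt_of_lt_of_le (Nat.lt_succ_self x) ((mono h).le_apply)⟩
  classical
  set k := Nat.find hun with hk
  have h1 : x < a k := Nat.find_spec hun
  have hk0 : k ≠ 0 := by
    intro h0
    rw [h0, h.1] at h1
    omega
  obtain ⟨j, hj⟩ : ∃ j, k = j + 1 := ⟨k - 1, by omega⟩
  refine ⟨j, ?_, by rw [← hj]; exact h1⟩
  by_contra hcon
  have := Nat.find_min hun (m := j) (by omega)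
  omega

lemma compl {x : ℕ} (hx : 1 ≤ x) (hna : ∀ k, a k ≠ x) : S2 a x ∨ S3 a x := by
  obtain ⟨k, hk1, hk2⟩ := exists_between h hx
  have hlt : a k < x := lt_of_le_of_ne hk1 (hna k)
  by_contra hcon
  push Not at hcon
  have hmem : x ∈ {x | a k < x ∧ ¬ Forbidden a k x} := by
    refine ⟨hlt, ?_⟩
    rintro (⟨i, _, hi⟩ | ⟨i, _, hi⟩)
    · exact hcon.1 ⟨i, hi⟩
    · exact hcon.2 ⟨i, hi⟩
  have := (h.2 k).2 hmem
  omega

lemma mem_iff {x : ℕ} (hx : 1 ≤ x) : (∃ k, a k = x) ↔ ¬ S2 a x ∧ ¬ S3 a x := by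
  constructor
  · rintro ⟨k, rfl⟩
    exact ⟨not_S2 h k, not_S3 h k⟩
  · rintro ⟨h1, h2⟩
    by_contra hcon
    push Not at hcon
    rcases compl h hx hcon with h3 | h3
    · exact h1 h3
    · exact h2 h3

lemma S2_succ {x : ℕ} (h1 : S2 a x) : ¬ S2 a (x + 1) := by
  rintro ⟨j, hj⟩
  obtain ⟨i, hi⟩ := h1
  have hm := mono h
  rcases Nat.lt_trichotomy i j with hij | hij | hij
  · have h2 : a (i + 1) ≤ a j := hm.monotone hij
    have h3 : a (i + 1 + 1) ≤ a (j + 1) := hm.monotone (by omega)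
    have h4 := lt_succ h i
    have h5 := lt_succ h (i + 1)
    omega
  · subst hij; omega
  · have h2 : a (j + 1) ≤ a i := hm.monotone hij
    have h4 := lt_succ h j
    have h5 := lt_succ h i
    omega

lemma S3_add {x d : ℕ} (h1 : S3 a x) (hd1 : 1 ≤ d) (hd : d ≤ 2) : ¬ S3 a (x + d) := by
  rintro ⟨j, hj⟩
  obtain ⟨i, hi⟩ := h1
  have hm := mono h
  rcases Nat.lt_trichotomy i j with hij | hij | hij
  · have h2 : a (i + 1) ≤ a j := hm.monotone hij
    have h3 : a (i + 2) ≤ a (j + 1) := hm.monotone (by omega)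
    have h3' : a (i + 3) ≤ a (j + 2) := hm.monotone (by omega)
    have h4 := lt_succ h i
    have h5 := lt_succ h (i + 1)
    have h6 := lt_succ h (i + 2)
    have e1 : i + 1 + 1 = i + 2 := rfl
    have e2 : i + 2 + 1 = i + 3 := rfl
    rw [e1] at h5
    rw [e2] at h6
    omega
  · subst hij; omega
  · have h2 : a (j + 1) ≤ a i := hm.monotone hij
    have h3 : a (j + 2) ≤ a (i + 1) := hm.monotone (by omega)
    have h4 := lt_succ h j
    have h5 := lt_succ h (i + 1)
    have h6 := lt_succ h i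
    have e1 : i + 1 + 1 = i + 2 := rfl
    rw [e1] at h5
    omega

/-- among four consecutive positive integers one is a term -/
lemma four {x : ℕ} (hx : 1 ≤ x) :
    (∃ k, a k = x) ∨ (∃ k, a k = x + 1) ∨ (∃ k, a k = x + 2) ∨ (∃ k, a k = x + 3) := by
  by_contra hcon
  push Not at hcon
  obtain ⟨h0, h1, h2, h3⟩ := hcon
  have c0 := compl h hx h0
  have c1 := compl h (x := x + 1) (by omega) h1
  have c2 := compl h (x := x + 2) (by omega) h2
  have c3 := compl h (x := x + 3) (by omega) h3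
  have s0 : S2 a x → ¬ S2 a (x + 1) := S2_succ h
  have s1 : S2 a (x + 1) → ¬ S2 a (x + 2) := S2_succ h
  have s2 : S2 a (x + 2) → ¬ S2 a (x + 3) := S2_succ h
  have t01 : S3 a x → ¬ S3 a (x + 1) := fun hh =>
    S3_add h (x := x) (d := 1) hh le_rfl (by omega)
  have t02 : S3 a x → ¬ S3 a (x + 2) := fun hh =>
    S3_add h (x := x) (d := 2) hh (by omega) le_rfl
  have t12 : S3 a (x + 1) → ¬ S3 a (x + 2) := fun hh =>
    S3_add h (x := x + 1) (d := 1) hh le_rfl (by omega)
  have t13 : S3 a (x + 1) → ¬ S3 a (x + 3) := fun hh =>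
    S3_add h (x := x + 1) (d := 2) hh (by omega) le_rfl
  have t23 : S3 a (x + 2) → ¬ S3 a (x + 3) := fun hh =>
    S3_add h (x := x + 2) (d := 1) hh le_rfl (by omega)
  tauto

lemma gap (k : ℕ) : a (k + 1) ≤ a k + 4 := by
  by_contra hcon
  push Not at hcon
  have hm := mono h
  have key : ∀ d, 1 ≤ d → d ≤ 4 → ¬ ∃ j, a j = a k + d := by
    rintro d hd1 hd4 ⟨j, hj⟩
    have h1 : a k < a j := by omega
    have h2 : a j < a (k + 1) := by omega
    have h3 := hm.lt_iff_lt.1 h1
    have h4 := hm.lt_iff_lt.1 h2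
    omega
  rcases four h (x := a k + 1) (by omega) with hh | hh | hh | hh
  · exact key 1 (by omega) (by omega) hh
  · exact key 2 (by omega) (by omega) (by obtain ⟨j, hj⟩ := hh; exact ⟨j, by omega⟩)
  · exact key 3 (by omega) (by omega) (by obtain ⟨j, hj⟩ := hh; exact ⟨j, by omega⟩)
  · exact key 4 (by omega) (by omega) (by obtain ⟨j, hj⟩ := hh; exact ⟨j, by omega⟩)

end

end Pool.Agent.helper93.GS
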