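import Pool.Agent.helper93.GS.Count

namespace Pool.Agent.helper93.GS

/-- the four windows of `m` -/
def InW (m v : ℕ) : Prop :=
  (36 * m + 67 ≤ v ∧ v ≤ 36 * m + 89) ∨ (12 * m + 20 ≤ v ∧ v ≤ 12 * m + 31) ∨
      (9 * m + 16 ≤ v ∧ v ≤ 9 * m + 23) ∨ (3 * m + 7 ≤ v ∧ v ≤ 3 * m + 9)

/-- position of the windows, all bounds by `M = n / 64` and `K = n / 48` -/
lemma inW_pos {n M K m v : ℕ} (hM : n < 64 * M + 64) (hK : 48 * K ≤ n) (h1 : M + 1 ≤ m)
    (h2 : m + 4 ≤ K) (hv : InW m v) : (n / 2 < v ∧ v ≤ n) ∨ (n / 8 < v ∧ v ≤ n / 4) ∨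
      (n / 32 < v ∧ v ≤ n / 16) := by
  unfold InW at hv
  rcases hv with hv | hv | hv | hv
  · left; omega
  · right; left; omega
  · right; left; omega
  · right; right; omega

lemma inW_inj {n M K m m' v : ℕ} (hM : n < 64 * M + 64) (hK : 48 * K ≤ n) (h1 : M + 1 ≤ m)
    (h2 : m + 4 ≤ K) (h1' : M + 1 ≤ m') (h2' : m' + 4 ≤ K) (hv : InW m v) (hv' : InW m' v) :
    m = m' := by
  unfold InW at hv hv'
  rcases hv with hv | hv | hv | hv
  · rcases hv' with hv' | hv' | hv' | hv'
    · omega
    · omega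
    · omega
    · omega
  · rcases hv' with hv' | hv' | hv' | hv'
    · omega
    · omega
    · omega
    · omega
  · rcases hv' with hv' | hv' | hv' | hv'
    · omega
    · omega
    · omega
    · omega
  · rcases hv' with hv' | hv' | hv' | hv'
    · omega
    · omega
    · omega
    · omega

lemma arith1 (n A0 A1 A2 A3 v1 v2 v3 : ℕ) (h1 : A0 + v1 ≤ (n - n / 2) + A1 + 1)
   (h2 : A1 + v2 ≤ (n / 4 - n / 8) + A2 + 1) (h3 : A2 + v3 ≤ (n / 16 - n / 32) + A3 + 1)
   (h4 : n / 48 ≤ n / 64 + 4 + (v1 + v2 + v3)) : 192 * A0 ≤ 125 * n + 1920 + 192 * A3 := by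
  have e1 : 2 * (n - n / 2) ≤ n + 1 := by omega
  have e2 : 8 * (n / 4 - n / 8) ≤ n + 4 := by omega
  have e3 : 32 * (n / 16 - n / 32) ≤ n + 16 := by omega
  have e4 : n < 48 * (n / 48) + 48 := by omega
  have e5 : 64 * (n / 64) ≤ n := by omega
  generalize n - n / 2 = x1 at *
  generalize n / 4 - n / 8 = x2 at *
  generalize n / 16 - n / 32 = x3 at *
  generalize n / 48 = x4 at *
  generalize n / 64 = x5 at *
  omega

section
variable {a : ℕ → ℕ} (h : IsGreedy a)
include h

/-- the violations in three ranges -/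
lemma many (n : ℕ) : n / 48 ≤ n / 64 + 4 + (vc a (n / 2) n + vc a (n / 8) (n / 4) +
    vc a (n / 32) (n / 16)) := by
  classical
  obtain ⟨w, hw⟩ := exists_choice h
  have hw' : ∀ m, InW m (w m) := fun m => (hw m).2
  have hM : n < 64 * (n / 64) + 64 := by omega
  have hK : 48 * (n / 48) ≤ n := by omega
  generalize n / 64 = M at hM ⊢
  generalize n / 48 = K at hK ⊢
  set U : Finset ℕ := ((Finset.Ioc (n / 2) n).filter (V a) ∪
    (Finset.Ioc (n / 8) (n / 4)).filter (V a)) ∪ (Finset.Ioc (n / 32) (n / 16)).filter (V a)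
    with hU
  have hmap : ∀ m ∈ Finset.Ico (M + 1) (K - 3), w m ∈ U := by
    intro m hm
    rw [Finset.mem_Ico] at hm
    have hv := (hw m).1
    have hp := inW_pos hM hK hm.1 (by omega) (hw' m)
    simp only [hU, Finset.mem_union, Finset.mem_filter, Finset.mem_Ioc, hv, and_true]
    rcases hp with hp | hp | hp
    · left; left; exact hp
    · left; right; exact hp
    · right; exact hp
  have hinj : Set.InjOn w ↑(Finset.Ico (M + 1) (K - 3)) := by
    intro m hm m' hm' heq
    rw [Finset.mem_coe, Finset.mem_Ico] at hm hm'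
    exact inW_inj hM hK hm.1 (by omega) hm'.1 (by omega) (hw' m) (heq ▸ hw' m')
  have hc := Finset.card_le_card_of_injOn w hmap hinj
  rw [Nat.card_Ico] at hc
  have c1 := Finset.card_union_le ((Finset.Ioc (n / 2) n).filter (V a) ∪
    (Finset.Ioc (n / 8) (n / 4)).filter (V a)) ((Finset.Ioc (n / 32) (n / 16)).filter (V a))
  have c2 := Finset.card_union_le ((Finset.Ioc (n / 2) n).filter (V a))
    ((Finset.Ioc (n / 8) (n / 4)).filter (V a))
  rw [← hU] at c1
  unfold vc
  generalize U.card = u at *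
  generalize ((Finset.Ioc (n / 2) n).filter (V a) ∪
    (Finset.Ioc (n / 8) (n / 4)).filter (V a)).card = u' at *
  generalize ((Finset.Ioc (n / 2) n).filter (V a)).card = u1 at *
  generalize ((Finset.Ioc (n / 8) (n / 4)).filter (V a)).card = u2 at *
  generalize ((Finset.Ioc (n / 32) (n / 16)).filter (V a)).card = u3 at *
  omega

/-- the recursion for the upper bound -/
lemma rec64 (n : ℕ) : 192 * count a n ≤ 125 * n + 1920 + 192 * count a (n / 64) := by
  have h1 := step4 h n
  have h2 := step4 h (n / 4)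
  have h3 := step4 h (n / 16)
  have h4 := many h n
  rw [Nat.div_div_eq_div_mul, Nat.div_div_eq_div_mul] at h2 h3
  exact arith1 n _ _ _ _ _ _ _ h1 h2 h3 h4

/-- explicit upper bound -/
lemma upper (n : ℕ) : (count a n : ℝ) ≤ 125 / 189 * n + 10 * (Nat.log 64 n + 1) := by
  induction n using Nat.strong_induction_on with
  | _ n ih =>
    have hr := rec64 h n
    have hr' : (192 : ℝ) * count a n ≤ 125 * n + 1920 + 192 * count a (n / 64) := by
      exact_mod_cast hr
    rcases Nat.lt_or_ge n 64 with hn | hn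
    · have h0 : n / 64 = 0 := by omega
      rw [h0, count_zero h] at hr'
      have hl : Nat.log 64 n = 0 := Nat.log_eq_zero_iff.2 (Or.inl hn)
      rw [hl]
      have hn0 : (0 : ℝ) ≤ n := Nat.cast_nonneg n
      push_cast at hr' ⊢
      linarith
    · have hi := ih (n / 64) (by omega)
      have hl : Nat.log 64 n = Nat.log 64 (n / 64) + 1 := by
        rw [Nat.log_div_base]
        have : 1 ≤ Nat.log 64 n := Nat.log_pos (by norm_num) hn
        omega
      have hd : ((n / 64 : ℕ) : ℝ) ≤ n / 64 := by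
        have := Nat.cast_div_le (m := n) (n := 64) (α := ℝ)
        simpa using this
      rw [hl]
      push_cast
      push_cast at hi
      linarith

lemma log_mono (n m : ℕ) (hm : m ≤ n) : (Nat.log 64 m : ℝ) ≤ Nat.log 64 n := by
  exact_mod_cast Nat.log_mono_right hm

/-- explicit lower bound -/
lemma lower (n : ℕ) : 509 / 1134 * (n : ℝ) - 20 * (Nat.log 64 n + 1) ≤ count a n := by
  have h1 := lower_step h n
  have h1' : (n : ℝ) ≤ count a n + count a (n / 2) + count a (n / 3) := by exact_mod_cast h1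
  have h2 := upper h (n / 2)
  have h3 := upper h (n / 3)
  have l2 : (Nat.log 64 (n / 2) : ℝ) ≤ Nat.log 64 n := by
    exact_mod_cast Nat.log_mono_right (Nat.div_le_self n 2)
  have l3 : (Nat.log 64 (n / 3) : ℝ) ≤ Nat.log 64 n := by
    exact_mod_cast Nat.log_mono_right (Nat.div_le_self n 3)
  have d2 : ((n / 2 : ℕ) : ℝ) ≤ n / 2 := by
    have := Nat.cast_div_le (m := n) (n := 2) (α := ℝ)
    simpa using this
  have d3 : ((n / 3 : ℕ) : ℝ) ≤ n / 3 := by
    have := Nat.cast_div_le (m := n) (n := 3) (α := ℝ)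
    simpa using this
  linarith

/-- violations in initial segments: the four levels together -/
lemma many' (N : ℕ) : N ≤ vc a 0 (36 * N + 53) + vc a 0 (12 * N + 19) + vc a 0 (9 * N + 14) +
    vc a 0 (3 * N + 6) := by
  classical
  obtain ⟨w, hw⟩ := exists_choice h
  -- sort the indices by level
  set I := Finset.range N with hI
  set I1 := I.filter (fun m => 36 * m + 67 ≤ w m ∧ w m ≤ 36 * m + 89) with hI1
  set I2 := I.filter (fun m => 12 * m + 20 ≤ w m ∧ w m ≤ 12 * m + 31) with hI2
  set I3 := I.filter (fun m => 9 * m + 16 ≤ w m ∧ w m ≤ 9 * m + 23) with hI3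
  set I4 := I.filter (fun m => 3 * m + 7 ≤ w m ∧ w m ≤ 3 * m + 9) with hI4
  have hcov : I ⊆ ((I1 ∪ I2) ∪ I3) ∪ I4 := by
    intro m hm
    simp only [hI1, hI2, hI3, hI4, Finset.mem_union, Finset.mem_filter, hm, true_and]
    rcases (hw m).2 with h1 | h1 | h1 | h1
    · left; left; left; exact h1
    · left; left; right; exact h1
    · left; right; exact h1
    · right; exact h1
  have b1 : I1.card ≤ vc a 0 (36 * N + 53) := by
    unfold vc
    refine Finset.card_le_card_of_injOn w ?_ ?_
    · intro m hm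
      rw [hI1, Finset.mem_coe, Finset.mem_filter, hI, Finset.mem_range] at hm
      rw [Finset.mem_coe, Finset.mem_filter, Finset.mem_Ioc]
      exact ⟨by omega, (hw m).1⟩
    · intro m hm m' hm' heq
      rw [hI1, Finset.mem_coe, Finset.mem_filter] at hm hm'
      have e1 := hm.2
      have e2 := hm'.2
      rw [heq] at e1
      omega
  have b2 : I2.card ≤ vc a 0 (12 * N + 19) := by
    unfold vc
    refine Finset.card_le_card_of_injOn w ?_ ?_
    · intro m hm
      rw [hI2, Finset.mem_coe, Finset.mem_filter, hI, Finset.mem_range] at hm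
      rw [Finset.mem_coe, Finset.mem_filter, Finset.mem_Ioc]
      exact ⟨by omega, (hw m).1⟩
    · intro m hm m' hm' heq
      rw [hI2, Finset.mem_coe, Finset.mem_filter] at hm hm'
      have e1 := hm.2
      have e2 := hm'.2
      rw [heq] at e1
      omega
  have b3 : I3.card ≤ vc a 0 (9 * N + 14) := by
    unfold vc
    refine Finset.card_le_card_of_injOn w ?_ ?_
    · intro m hm
      rw [hI3, Finset.mem_coe, Finset.mem_filter, hI, Finset.mem_range] at hm
      rw [Finset.mem_coe, Finset.mem_filter, Finset.mem_Ioc]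
      exact ⟨by omega, (hw m).1⟩
    · intro m hm m' hm' heq
      rw [hI3, Finset.mem_coe, Finset.mem_filter] at hm hm'
      have e1 := hm.2
      have e2 := hm'.2
      rw [heq] at e1
      omega
  have b4 : I4.card ≤ vc a 0 (3 * N + 6) := by
    unfold vc
    refine Finset.card_le_card_of_injOn w ?_ ?_
    · intro m hm
      rw [hI4, Finset.mem_coe, Finset.mem_filter, hI, Finset.mem_range] at hm
      rw [Finset.mem_coe, Finset.mem_filter, Finset.mem_Ioc]
      exact ⟨by omega, (hw m).1⟩
    · intro m hm m' hm' heq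
      rw [hI4, Finset.mem_coe, Finset.mem_filter] at hm hm'
      have e1 := hm.2
      have e2 := hm'.2
      rw [heq] at e1
      omega
  have hc := Finset.card_le_card hcov
  rw [hI, Finset.card_range] at hc
  have u1 := Finset.card_union_le ((I1 ∪ I2) ∪ I3) I4
  have u2 := Finset.card_union_le (I1 ∪ I2) I3
  have u3 := Finset.card_union_le I1 I2
  omega

end

end Pool.Agent.helper93.GS
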