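import Pool.Agent.helper93.GS.Masks

namespace Pool.Agent.helper93.GS

/-- no four consecutive zeros -/
def gapOk (z : ℕ) : Bool := Nat.beq (z &&& (z >>> 1) &&& (z >>> 2) &&& (z >>> 3)) 0

/-- no two consecutive zeros at positions `i, i + 1` with `i` a bit of `m` -/
def isoOk (m z : ℕ) : Bool := Nat.beq (z &&& (z >>> 1) &&& m) 0

def win11 : List (ℕ × ℕ) := (en 7 10).filter fun q => gapOk q.2
def win20 : List (ℕ × ℕ) := (en 8 16).filter fun q => isoOk (127 * 2 ^ 16) q.2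
def win21 : List (ℕ × ℕ) := (en 7 3).filter fun q => gapOk q.2 && isoOk (3 * 2 ^ 7) q.2
def win12 : List (ℕ × ℕ) := (en 5 2).filter fun q => gapOk q.2

/-- knowledge about the level `12 m` from knowledge about the level `6 m` -/
def x01 (q : ℕ × ℕ) : ℕ × ℕ := (mk (fun t => !P2 q t) 12 20, mk (C2 q) 12 20)

def D11 : List ((ℕ × ℕ) × ℕ × ℕ × List ℕ) :=
  win11.map fun q => (q, mk (C3 q) 13 33, mk (P3 q) 13 33,
    (List.range' 67 23).filter (C3 (x01 q)))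

def D20 : List (ℕ × ℕ × ℕ) := win20.map fun q => (q.1, mk (C2 q) 13 33, mk (P2 q) 13 33)

def D21 : List (ℕ × ℕ × ℕ) :=
  win21.map fun q => (mk (C2 q) 7 10, mk (P2 q) 7 10, mk (C3 q) 8 16)

def D12 : List (ℕ × ℕ) := win12.map fun q => (mk (C3 q) 7 10, mk (P3 q) 7 10)

def full10 : ℕ := 8191 * 2 ^ 33

def top (a : (ℕ × ℕ) × ℕ × ℕ × List ℕ) (b : ℕ × ℕ × ℕ) : Bool :=
  a.2.2.2.all fun t => P2 (full10 ^^^ (b.2.2 ||| a.2.2.1), b.2.1 ||| a.2.1) t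

def ok21 (a : (ℕ × ℕ) × ℕ × ℕ × List ℕ) (b : ℕ × ℕ × ℕ) (d : ℕ × ℕ × ℕ) : Bool :=
  Nat.beq (d.2.2 &&& b.1) 0 && Nat.beq (d.1 &&& a.1.1) 0

def ok12 (a : (ℕ × ℕ) × ℕ × ℕ × List ℕ) (d : ℕ × ℕ × ℕ) (e : ℕ × ℕ) : Bool :=
  Nat.beq (e.1 &&& a.1.1) 0 && Nat.beq (a.1.2 &&& (d.2.1 ||| e.2)) a.1.2

def chk : Bool := D11.all fun a => D20.all fun b => !(top a b) ||
  D21.all fun d => !(ok21 a b d) || D12.all fun e => !(ok12 a d e)

end Pool.Agent.helper93.GS
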