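import Pool.Agent.helper93.GS.Local

namespace Pool.Agent.helper93.GS

open Classical in
/-- number of violations (sums of three, not of two consecutive terms) in `(x, y]` -/
noncomputable def vc (a : ℕ → ℕ) (x y : ℕ) : ℕ := ((Finset.Ioc x y).filter (V a)).card

section
variable {a : ℕ → ℕ} (h : IsGreedy a)
include h

lemma exists_N (x : ℕ) : ∃ N, ∀ k, a k ≤ x ↔ k < N := by
  classical
  have hun : ∃ k, x < a k := ⟨x + 1, lt_of_lt_of_le (Nat.lt_succ_self x) ((mono h).le_apply)⟩
  refine ⟨Nat.find hun, fun k => ⟨fun hk => ?_, fun hk => ?_⟩⟩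
  · by_contra hcon
    have h1 : a (Nat.find hun) ≤ a k := (mono h).monotone (not_lt.1 hcon)
    have h2 := Nat.find_spec hun
    omega
  · exact not_lt.1 (Nat.find_min hun hk)

lemma lt_count {x k : ℕ} : a k ≤ x ↔ k < count a x := by
  obtain ⟨N, hN⟩ := exists_N h x
  have : count a x = N := by
    unfold count
    have hs : {n : ℕ | a n ≤ x} = ↑(Finset.range N) := by
      ext k
      simp [hN k]
    rw [hs, Set.ncard_coe_finset, Finset.card_range]
  rw [this]
  exact hN k

lemma count_mono {x y : ℕ} (hxy : x ≤ y) : count a x ≤ count a y := by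
  by_contra hcon
  rw [not_le] at hcon
  have h1 := (lt_count h (x := x)).2 hcon
  have h2 := (lt_count h (x := y) (k := count a y)).1 (h1.trans hxy)
  omega

lemma count_zero : count a 0 = 0 := by
  by_contra hcon
  have h1 := (lt_count h (x := 0) (k := 0)).2 (Nat.pos_of_ne_zero hcon)
  have := pos h 0
  omega

lemma s_inj : Function.Injective fun i => a i + a (i + 1) := by
  have : StrictMono fun i => a i + a (i + 1) := by
    refine strictMono_nat_of_lt_succ fun n => ?_
    have h1 := lt_succ h n
    have h2 := lt_succ h (n + 1)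
    show a n + a (n + 1) < a (n + 1) + a (n + 1 + 1)
    omega
  exact this.injective

/-- disjoint families inside `(x, y]` -/
lemma three_le {x y i j : ℕ} (hi : ∀ k, i ≤ k → k < j → x < a k + a (k + 1) ∧
    a k + a (k + 1) ≤ y) : (count a y - count a x) + (j - i) + vc a x y ≤ y - x := by
  classical
  set S : Finset ℕ := (Finset.Ico (count a x) (count a y)).image a with hS
  set T : Finset ℕ := (Finset.Ico i j).image (fun i => a i + a (i + 1)) with hT
  set W : Finset ℕ := (Finset.Ioc x y).filter (V a) with hW
  have cS : S.card = count a y - count a x := by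
    rw [hS, Finset.card_image_of_injective _ (mono h).injective, Nat.card_Ico]
  have cT : T.card = j - i := by
    rw [hT, Finset.card_image_of_injective _ (s_inj h), Nat.card_Ico]
  have cW : W.card = vc a x y := by
    rw [hW]; unfold vc; rfl
  have dST : Disjoint S T := by
    rw [Finset.disjoint_left]
    intro v hv hv'
    rw [hS, Finset.mem_image] at hv
    rw [hT, Finset.mem_image] at hv'
    obtain ⟨k, _, rfl⟩ := hv
    obtain ⟨l, _, hl⟩ := hv'
    exact not_S2 h k ⟨l, hl.symm⟩
  have dSW : Disjoint (S ∪ T) W := by
    rw [Finset.disjoint_left]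
    intro v hv hv'
    rw [hW, Finset.mem_filter] at hv'
    rw [Finset.mem_union] at hv
    rcases hv with hv | hv
    · rw [hS, Finset.mem_image] at hv
      obtain ⟨k, _, rfl⟩ := hv
      exact not_S3 h k hv'.2.1
    · rw [hT, Finset.mem_image] at hv
      obtain ⟨k, _, hk⟩ := hv
      exact hv'.2.2 ⟨k, hk.symm⟩
  have hsub : S ∪ T ∪ W ⊆ Finset.Ioc x y := by
    intro v hv
    rw [Finset.mem_union, Finset.mem_union] at hv
    rw [Finset.mem_Ioc]
    rcases hv with (hv | hv) | hv
    · rw [hS, Finset.mem_image] at hv
      obtain ⟨k, hk, rfl⟩ := hv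
      rw [Finset.mem_Ico] at hk
      refine ⟨?_, (lt_count h).2 hk.2⟩
      by_contra hcon
      have := (lt_count h (x := x) (k := k)).1 (not_lt.1 hcon)
      omega
    · rw [hT, Finset.mem_image] at hv
      obtain ⟨k, hk, rfl⟩ := hv
      rw [Finset.mem_Ico] at hk
      exact hi k hk.1 hk.2
    · rw [hW, Finset.mem_filter, Finset.mem_Ioc] at hv
      exact hv.1
  have hc := Finset.card_le_card hsub
  rw [Finset.card_union_of_disjoint dSW, Finset.card_union_of_disjoint dST, cS, cT, cW,
    Nat.card_Ioc] at hc
  exact hc

/-- one step down by a factor four -/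
lemma step4 (n : ℕ) : count a n + vc a (n / 2) n ≤ (n - n / 2) + count a (n / 4) + 1 := by
  have h1 := three_le h (x := n / 2) (y := n) (i := count a (n / 4)) (j := count a (n / 2) - 1)
    (fun k hk1 hk2 => by
      have e1 : n / 4 < a k := by
        by_contra hcon
        have := (lt_count h (x := n / 4) (k := k)).1 (not_lt.1 hcon)
        omega
      have e2 : a (k + 1) ≤ n / 2 := (lt_count h).2 (by omega)
      have e3 := lt_succ h k
      omega)
  have h2 : count a (n / 4) ≤ count a (n / 2) := count_mono h (by omega)
  have h3 : count a (n / 2) ≤ count a n := count_mono h (by omega)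
  omega

/-- all violations up to `n` -/
lemma vc_zero (n : ℕ) : vc a 0 n + count a n + count a (n / 2) ≤ n + 1 := by
  have h1 := three_le h (x := 0) (y := n) (i := 0) (j := count a (n / 2) - 1)
    (fun k _ hk2 => by
      have e2 : a (k + 1) ≤ n / 2 := (lt_count h).2 (by omega)
      have e3 := lt_succ h k
      have e4 := pos h k
      omega)
  rw [count_zero h] at h1
  omega

/-- every number is a term or a sum of two or three consecutive terms -/
lemma lower_step (n : ℕ) : n ≤ count a n + count a (n / 2) + count a (n / 3) := by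
  classical
  have hsub : Finset.Ioc 0 n ⊆ (Finset.range (count a n)).image a ∪
      (Finset.range (count a (n / 2))).image (fun i => a i + a (i + 1)) ∪
      (Finset.range (count a (n / 3))).image (fun i => a i + a (i + 1) + a (i + 2)) := by
    intro v hv
    rw [Finset.mem_Ioc] at hv
    simp only [Finset.mem_union, Finset.mem_image, Finset.mem_range]
    by_cases hA : ∃ k, a k = v
    · obtain ⟨k, hk⟩ := hA
      left; left
      exact ⟨k, (lt_count h).1 (by omega), hk⟩
    · have hA' : ∀ k, a k ≠ v := fun k hk => hA ⟨k, hk⟩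
      rcases compl h hv.1 hA' with ⟨i, hi⟩ | ⟨i, hi⟩
      · left; right
        have := lt_succ h i
        exact ⟨i, (lt_count h).1 (by omega), hi.symm⟩
      · right
        have h1 := lt_succ h i
        have h2 := lt_succ h (i + 1)
        rw [show i + 1 + 1 = i + 2 from rfl] at h2
        exact ⟨i, (lt_count h).1 (by omega), hi.symm⟩
  have hc := Finset.card_le_card hsub
  rw [Nat.card_Ioc] at hc
  have c1 := Finset.card_union_le ((Finset.range (count a n)).image a ∪
      (Finset.range (count a (n / 2))).image (fun i => a i + a (i + 1)))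
      ((Finset.range (count a (n / 3))).image (fun i => a i + a (i + 1) + a (i + 2)))
  have c2 := Finset.card_union_le ((Finset.range (count a n)).image a)
      ((Finset.range (count a (n / 2))).image (fun i => a i + a (i + 1)))
  have i1 := Finset.card_image_le (s := Finset.range (count a n)) (f := a)
  have i2 := Finset.card_image_le (s := Finset.range (count a (n / 2)))
    (f := fun i => a i + a (i + 1))
  have i3 := Finset.card_image_le (s := Finset.range (count a (n / 3)))
    (f := fun i => a i + a (i + 1) + a (i + 2))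
  rw [Finset.card_range] at i1 i2 i3
  omega

/-- the chosen violation -/
lemma exists_choice : ∃ w : ℕ → ℕ, ∀ m, V a (w m) ∧
    ((36 * m + 67 ≤ w m ∧ w m ≤ 36 * m + 89) ∨ (12 * m + 20 ≤ w m ∧ w m ≤ 12 * m + 31) ∨
      (9 * m + 16 ≤ w m ∧ w m ≤ 9 * m + 23) ∨ (3 * m + 7 ≤ w m ∧ w m ≤ 3 * m + 9)) :=
  ⟨fun m => (window h m).choose, fun m => (window h m).choose_spec⟩

end

end Pool.Agent.helper93.GS
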