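import Pool.Agent.helper93.GS.Limits

open Filter Topology

namespace Pool.Agent.helper93.GS

lemma lin_atTop {α β : ℕ} (hα : 1 ≤ α) : Tendsto (fun k : ℕ => α * k + β) atTop atTop := by
  refine tendsto_atTop_mono (fun k => ?_) tendsto_id
  show k ≤ α * k + β
  nlinarith

lemma lin_div (α β : ℕ) : Tendsto (fun k : ℕ => ((α * k + β : ℕ) : ℝ) / k) atTop (𝓝 α) := by
  have h1 : Tendsto (fun k : ℕ => (α : ℝ) + β * (1 / (k : ℝ))) atTop (𝓝 (α + β * 0)) :=
    (tendsto_one_div_atTop_nhds_zero_nat.const_mul _).const_add _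
  rw [mul_zero, add_zero] at h1
  refine h1.congr' ?_
  filter_upwards [eventually_ge_atTop 1] with k hk
  have hk0 : (k : ℝ) ≠ 0 := by positivity
  push_cast
  field_simp

section
variable {a : ℕ → ℕ} (h : IsGreedy a) {δ : ℝ}
  (hδ : Tendsto (fun n : ℕ => (count a n : ℝ) / n) atTop (𝓝 δ))
include hδ

lemma count_lin {α β : ℕ} (hα : 1 ≤ α) :
    Tendsto (fun k : ℕ => (count a (α * k + β) : ℝ) / k) atTop (𝓝 (δ * α)) := by
  have h1 := (hδ.comp (lin_atTop (β := β) hα)).mul (lin_div α β)
  refine h1.congr' ?_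
  filter_upwards [eventually_ge_atTop 1] with k hk
  have hk0 : (k : ℝ) ≠ 0 := by positivity
  have hk1 : ((α * k + β : ℕ) : ℝ) ≠ 0 := by
    have : 1 ≤ α * k := Nat.mul_pos hα hk
    have h2 : 0 < α * k + β := by omega
    exact_mod_cast h2.ne'
  simp only [Function.comp]
  field_simp

include h

lemma density_lower : 6 / 11 ≤ δ := by
  have t1 := count_lin hδ (α := 6) (β := 0) (by norm_num)
  have t2 := count_lin hδ (α := 3) (β := 0) (by norm_num)
  have t3 := count_lin hδ (α := 2) (β := 0) (by norm_num)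
  have ht := (t1.add t2).add t3
  have hge : ∀ᶠ k : ℕ in atTop, (6 : ℝ) ≤ (count a (6 * k + 0) : ℝ) / k +
      (count a (3 * k + 0) : ℝ) / k + (count a (2 * k + 0) : ℝ) / k := by
    filter_upwards [eventually_ge_atTop 1] with k hk
    have hk0 : (0 : ℝ) < k := by exact_mod_cast hk
    have hs := lower_step h (6 * k)
    rw [show 6 * k / 2 = 3 * k by omega, show 6 * k / 3 = 2 * k by omega] at hs
    have hs' : (6 : ℝ) * k ≤ count a (6 * k) + count a (3 * k) + count a (2 * k) := by
      exact_mod_cast hs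
    rw [← add_div, ← add_div, le_div_iff₀ hk0]
    simpa using hs'
  have := ge_of_tendsto ht hge
  push_cast at this
  linarith

lemma vc_mono {x y : ℕ} (hxy : x ≤ y) : vc a 0 x ≤ vc a 0 y := by
  classical
  unfold vc
  refine Finset.card_le_card (Finset.filter_subset_filter _ ?_)
  exact Finset.Ioc_subset_Ioc_right hxy

lemma density_upper : δ ≤ 59 / 90 := by
  have s1 := count_lin hδ (α := 72) (β := 54) (by norm_num)
  have s2 := count_lin hδ (α := 36) (β := 27) (by norm_num)
  have s3 := count_lin hδ (α := 24) (β := 20) (by norm_num)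
  have s4 := count_lin hδ (α := 12) (β := 10) (by norm_num)
  have s5 := count_lin hδ (α := 18) (β := 14) (by norm_num)
  have s6 := count_lin hδ (α := 9) (β := 7) (by norm_num)
  have s7 := count_lin hδ (α := 6) (β := 6) (by norm_num)
  have s8 := count_lin hδ (α := 3) (β := 3) (by norm_num)
  have hc : Tendsto (fun k : ℕ => (98 : ℝ) * (1 / (k : ℝ))) atTop (𝓝 (98 * 0)) :=
    tendsto_one_div_atTop_nhds_zero_nat.const_mul _
  have ht := ((((((((s1.add s2).add s3).add s4).add s5).add s6).add s7).add s8).sub hc)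
  have hle : ∀ᶠ k : ℕ in atTop, ((((((((count a (72 * k + 54) : ℝ) / k +
      (count a (36 * k + 27) : ℝ) / k) + (count a (24 * k + 20) : ℝ) / k) +
      (count a (12 * k + 10) : ℝ) / k) + (count a (18 * k + 14) : ℝ) / k) +
      (count a (9 * k + 7) : ℝ) / k) + (count a (6 * k + 6) : ℝ) / k) +
      (count a (3 * k + 3) : ℝ) / k) - 98 * (1 / (k : ℝ)) ≤ 118 := by
    filter_upwards [eventually_ge_atTop 1] with k hk
    have hk0 : (0 : ℝ) < k := by exact_mod_cast hk
    have m0 := many' h (2 * k)
    have v1 := vc_zero h (72 * k + 54)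
    have v2 := vc_zero h (24 * k + 20)
    have v3 := vc_zero h (18 * k + 14)
    have v4 := vc_zero h (6 * k + 6)
    have w1 : vc a 0 (36 * (2 * k) + 53) ≤ vc a 0 (72 * k + 54) := vc_mono h hδ (by omega)
    have w2 : vc a 0 (12 * (2 * k) + 19) ≤ vc a 0 (24 * k + 20) := vc_mono h hδ (by omega)
    have w3 : vc a 0 (9 * (2 * k) + 14) ≤ vc a 0 (18 * k + 14) := vc_mono h hδ (by omega)
    have w4 : vc a 0 (3 * (2 * k) + 6) ≤ vc a 0 (6 * k + 6) := vc_mono h hδ (by omega)
    rw [show (72 * k + 54) / 2 = 36 * k + 27 by omega] at v1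
    rw [show (24 * k + 20) / 2 = 12 * k + 10 by omega] at v2
    rw [show (18 * k + 14) / 2 = 9 * k + 7 by omega] at v3
    rw [show (6 * k + 6) / 2 = 3 * k + 3 by omega] at v4
    have hsum : count a (72 * k + 54) + count a (36 * k + 27) + count a (24 * k + 20) +
        count a (12 * k + 10) + count a (18 * k + 14) + count a (9 * k + 7) +
        count a (6 * k + 6) + count a (3 * k + 3) ≤ 118 * k + 98 := by omega
    have hsum' : (count a (72 * k + 54) : ℝ) + count a (36 * k + 27) + count a (24 * k + 20) +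
        count a (12 * k + 10) + count a (18 * k + 14) + count a (9 * k + 7) +
        count a (6 * k + 6) + count a (3 * k + 3) ≤ 118 * k + 98 := by exact_mod_cast hsum
    have e : ((((((((count a (72 * k + 54) : ℝ) / k +
      (count a (36 * k + 27) : ℝ) / k) + (count a (24 * k + 20) : ℝ) / k) +
      (count a (12 * k + 10) : ℝ) / k) + (count a (18 * k + 14) : ℝ) / k) +
      (count a (9 * k + 7) : ℝ) / k) + (count a (6 * k + 6) : ℝ) / k) +
      (count a (3 * k + 3) : ℝ) / k) - 98 * (1 / (k : ℝ)) =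
      ((count a (72 * k + 54) : ℝ) + count a (36 * k + 27) + count a (24 * k + 20) +
        count a (12 * k + 10) + count a (18 * k + 14) + count a (9 * k + 7) +
        count a (6 * k + 6) + count a (3 * k + 3) - 98) / k := by ring
    rw [e, div_le_iff₀ hk0]
    linarith
  have := le_of_tendsto ht hle
  push_cast at this
  linarith

end

end Pool.Agent.helper93.GS
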