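import Pool.Agent.helper93.GS.Check

namespace Pool.Agent.helper93.GS

theorem chk_true : chk = true := by decide +kernel

lemma gapOk_mk {f : ℕ → Bool} {k lo : ℕ}
    (g : ∀ t, lo ≤ t → t + 3 < lo + k →
      f t = true ∨ f (t + 1) = true ∨ f (t + 2) = true ∨ f (t + 3) = true) :
    gapOk (mk (fun i => !f i) k lo) = true := by
  unfold gapOk
  rw [Nat.beq_eq]
  apply Nat.eq_of_testBit_eq
  intro i
  rw [Nat.zero_testBit]
  simp only [Nat.testBit_and, Nat.testBit_shiftRight, testBit_mk]
  by_contra hcon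
  rw [Bool.not_eq_false] at hcon
  simp only [Bool.and_eq_true, decide_eq_true_eq, Bool.not_eq_true'] at hcon
  obtain ⟨⟨⟨⟨⟨h1, h2⟩, h3⟩, ⟨⟨h4, h5⟩, h6⟩⟩, ⟨⟨h7, h8⟩, h9⟩⟩, ⟨⟨h10, h11⟩, h12⟩⟩ := hcon
  rw [Nat.add_comm 1 i] at h6
  rw [Nat.add_comm 2 i] at h9
  rw [Nat.add_comm 3 i] at h12
  rcases g i h1 (by omega) with hh | hh | hh | hh
  · rw [hh] at h3; exact absurd h3 (by decide)
  · rw [hh] at h6; exact absurd h6 (by decide)
  · rw [hh] at h9; exact absurd h9 (by decide)
  · rw [hh] at h12; exact absurd h12 (by decide)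

lemma isoOk_mk {f : ℕ → Bool} {k lo m : ℕ}
    (g : ∀ t, lo ≤ t → t + 1 < lo + k → m.testBit t = true →
      f t = true ∨ f (t + 1) = true) :
    isoOk m (mk (fun i => !f i) k lo) = true := by
  unfold isoOk
  rw [Nat.beq_eq]
  apply Nat.eq_of_testBit_eq
  intro i
  rw [Nat.zero_testBit]
  simp only [Nat.testBit_and, Nat.testBit_shiftRight, testBit_mk]
  by_contra hcon
  rw [Bool.not_eq_false] at hcon
  simp only [Bool.and_eq_true, decide_eq_true_eq, Bool.not_eq_true'] at hcon
  obtain ⟨⟨⟨⟨h1, h2⟩, h3⟩, ⟨⟨h4, h5⟩, h6⟩⟩, h7⟩ := hcon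
  rw [Nat.add_comm 1 i] at h6
  rcases g i h1 (by omega) h7 with hh | hh
  · rw [hh] at h3; exact absurd h3 (by decide)
  · rw [hh] at h6; exact absurd h6 (by decide)

/-- disjointness of masks -/
lemma and_eq_zero {x y : ℕ} (h : ∀ i, x.testBit i = true → y.testBit i = true → False) :
    Nat.beq (x &&& y) 0 = true := by
  rw [Nat.beq_eq]
  apply Nat.eq_of_testBit_eq
  intro i
  rw [Nat.zero_testBit, Nat.testBit_and]
  by_contra hcon
  rw [Bool.not_eq_false, Bool.and_eq_true] at hcon
  exact h i hcon.1 hcon.2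

lemma and_eq_left {x y : ℕ} (h : ∀ i, x.testBit i = true → y.testBit i = true) :
    Nat.beq (x &&& y) x = true := by
  rw [Nat.beq_eq]
  apply Nat.eq_of_testBit_eq
  intro i
  rw [Nat.testBit_and]
  cases hx : x.testBit i
  · rfl
  · rw [h i hx]; rfl

/-- masks of the two functions -/
def kq (f : ℕ → Bool) (k lo : ℕ) : ℕ × ℕ := (mk f k lo, mk (fun i => !f i) k lo)

lemma kn_kq (f : ℕ → Bool) (k lo : ℕ) : Kn (kq f k lo) f := kn_mk f k lo

lemma full10_testBit (i : ℕ) : full10.testBit i = (decide (33 ≤ i) && decide (i < 33 + 13)) := by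
  have h : full10 = mk (fun _ => true) 13 33 := by decide +kernel
  rw [h, testBit_mk, Bool.and_true]

theorem fin_contra (f11 f20 f21 f12 f10 f01 : ℕ → Bool)
    (g11 : ∀ t, 10 ≤ t → t ≤ 13 →
      f11 t = true ∨ f11 (t + 1) = true ∨ f11 (t + 2) = true ∨ f11 (t + 3) = true)
    (g21 : ∀ t, 3 ≤ t → t ≤ 6 →
      f21 t = true ∨ f21 (t + 1) = true ∨ f21 (t + 2) = true ∨ f21 (t + 3) = true)
    (g12 : ∀ t, 2 ≤ t → t ≤ 3 →
      f12 t = true ∨ f12 (t + 1) = true ∨ f12 (t + 2) = true ∨ f12 (t + 3) = true)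
    (i20 : ∀ t, 16 ≤ t → t ≤ 22 → f20 t = true ∨ f20 (t + 1) = true)
    (i21 : ∀ t, 7 ≤ t → t ≤ 8 → f21 t = true ∨ f21 (t + 1) = true)
    (h11 : ∀ t, 10 ≤ t → t ≤ 16 → f11 t = !(F2 f21 t || F3 f12 t))
    (h20 : ∀ t, 16 ≤ t → t ≤ 23 → F3 f21 t = true → f20 t = false)
    (h10 : ∀ t, 33 ≤ t → t ≤ 45 → f10 t = !(F2 f20 t || F3 f11 t))
    (h01 : ∀ t, 20 ≤ t → t ≤ 31 → f01 t = !(F2 f11 t))
    (htop : ∀ t, 67 ≤ t → t ≤ 89 → F3 f01 t = true → F2 f10 t = true) : False := by
  have k11 : Kn (kq f11 7 10) f11 := kn_kq _ _ _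
  have k20 : Kn (kq f20 8 16) f20 := kn_kq _ _ _
  have k21 : Kn (kq f21 7 3) f21 := kn_kq _ _ _
  have k12 : Kn (kq f12 5 2) f12 := kn_kq _ _ _
  -- membership
  have m11 : kq f11 7 10 ∈ win11 := by
    unfold win11
    rw [List.mem_filter]
    exact ⟨mk_mem_en f11 7 10, gapOk_mk fun t ht1 ht2 => g11 t ht1 (by omega)⟩
  have m20 : kq f20 8 16 ∈ win20 := by
    unfold win20
    rw [List.mem_filter]
    exact ⟨mk_mem_en f20 8 16, isoOk_mk fun t ht1 ht2 _ => i20 t ht1 (by omega)⟩
  have m21 : kq f21 7 3 ∈ win21 := by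
    unfold win21
    rw [List.mem_filter]
    refine ⟨mk_mem_en f21 7 3, ?_⟩
    rw [Bool.and_eq_true]
    refine ⟨gapOk_mk fun t ht1 ht2 => g21 t ht1 (by omega), isoOk_mk fun t ht1 ht2 ht3 => ?_⟩
    have h7 : 7 ≤ t := by
      by_contra hcon
      have : t = 3 ∨ t = 4 ∨ t = 5 ∨ t = 6 := by omega
      rcases this with rfl | rfl | rfl | rfl <;> revert ht3 <;> decide
    exact i21 t h7 (by omega)
  have m12 : kq f12 5 2 ∈ win12 := by
    unfold win12
    rw [List.mem_filter]
    exact ⟨mk_mem_en f12 5 2, gapOk_mk fun t ht1 ht2 => g12 t ht1 (by omega)⟩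
  -- knowledge at level 12 m
  have k01 : Kn (x01 (kq f11 7 10)) f01 := by
    constructor
    · intro i hi
      simp only [x01, testBit_mk, Bool.and_eq_true, decide_eq_true_eq, Bool.not_eq_true'] at hi
      rw [h01 i (by omega) (by omega)]
      cases hF : F2 f11 i
      · rfl
      · rw [P2_sound k11 hF] at hi
        exact absurd hi.2 (by decide)
    · intro i hi
      simp only [x01, testBit_mk, Bool.and_eq_true, decide_eq_true_eq] at hi
      rw [h01 i (by omega) (by omega), C2_sound k11 hi.2]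
      rfl
  -- knowledge at level 18 m
  have k10 : Kn (full10 ^^^ (mk (P2 (kq f20 8 16)) 13 33 ||| mk (P3 (kq f11 7 10)) 13 33),
      mk (C2 (kq f20 8 16)) 13 33 ||| mk (C3 (kq f11 7 10)) 13 33) f10 := by
    constructor
    · intro i hi
      simp only [Nat.testBit_xor, Nat.testBit_or, testBit_mk, full10_testBit] at hi
      by_cases hw : 33 ≤ i ∧ i < 33 + 13
      · rw [h10 i hw.1 (by omega)]
        cases hF : F2 f20 i
        · cases hG : F3 f11 i
          · rfl
          · rw [P3_sound k11 hG] at hi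
            simp [hw.1, hw.2] at hi
        · rw [P2_sound k20 hF] at hi
          simp [hw.1, hw.2] at hi
      · have : (decide (33 ≤ i) && decide (i < 33 + 13)) = false := by
          rw [Bool.and_eq_false_iff]
          by_cases h1 : 33 ≤ i
          · right; simp; omega
          · left; simp; omega
        rw [this] at hi
        simp at hi
    · intro i hi
      simp only [Nat.testBit_or, testBit_mk, Bool.or_eq_true, Bool.and_eq_true,
        decide_eq_true_eq] at hi
      rcases hi with ⟨⟨hi1, hi2⟩, hi3⟩ | ⟨⟨hi1, hi2⟩, hi3⟩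
      · rw [h10 i hi1 (by omega), C2_sound k20 hi3]; rfl
      · rw [h10 i hi1 (by omega), C3_sound k11 hi3, Bool.or_true]; rfl
  have hc := chk_true
  unfold chk at hc
  rw [List.all_eq_true] at hc
  have hc1 := hc _ (List.mem_map_of_mem (f := fun q => (q, mk (C3 q) 13 33, mk (P3 q) 13 33,
    (List.range' 67 23).filter (C3 (x01 q)))) m11)
  rw [List.all_eq_true] at hc1
  have hc2 := hc1 _ (List.mem_map_of_mem
    (f := fun q : ℕ × ℕ => (q.1, mk (C2 q) 13 33, mk (P2 q) 13 33)) m20)
  rw [Bool.or_eq_true] at hc2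
  rcases hc2 with hc2 | hc2
  · rw [Bool.not_eq_true'] at hc2
    have : top (kq f11 7 10, mk (C3 (kq f11 7 10)) 13 33, mk (P3 (kq f11 7 10)) 13 33,
        (List.range' 67 23).filter (C3 (x01 (kq f11 7 10))))
        ((kq f20 8 16).1, mk (C2 (kq f20 8 16)) 13 33, mk (P2 (kq f20 8 16)) 13 33) = true := by
      unfold top
      rw [List.all_eq_true]
      intro t ht
      rw [List.mem_filter, List.mem_range'_1] at ht
      exact P2_sound k10 (htop t ht.1.1 (by omega) (C3_sound k01 ht.2))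
    rw [this] at hc2
    exact absurd hc2 (by decide)
  · rw [List.all_eq_true] at hc2
    have hc3 := hc2 _ (List.mem_map_of_mem
      (f := fun q : ℕ × ℕ => (mk (C2 q) 7 10, mk (P2 q) 7 10, mk (C3 q) 8 16)) m21)
    rw [Bool.or_eq_true] at hc3
    rcases hc3 with hc3 | hc3
    · rw [Bool.not_eq_true'] at hc3
      unfold ok21 at hc3
      rw [and_eq_zero, and_eq_zero] at hc3
      · exact absurd hc3 (by decide)
      · intro i hi1 hi2
        simp only [testBit_mk, Bool.and_eq_true, decide_eq_true_eq] at hi1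
        have := h11 i hi1.1.1 (by omega)
        rw [C2_sound k21 hi1.2, Bool.true_or] at this
        rw [k11.1 i hi2] at this
        exact absurd this (by decide)
      · intro i hi1 hi2
        simp only [testBit_mk, Bool.and_eq_true, decide_eq_true_eq] at hi1
        have := h20 i hi1.1.1 (by omega) (C3_sound k21 hi1.2)
        rw [k20.1 i hi2] at this
        exact absurd this (by decide)
    · rw [List.all_eq_true] at hc3
      have hc4 := hc3 _ (List.mem_map_of_mem
        (f := fun q : ℕ × ℕ => (mk (C3 q) 7 10, mk (P3 q) 7 10)) m12)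
      rw [Bool.not_eq_true'] at hc4
      unfold ok12 at hc4
      rw [and_eq_zero, and_eq_left] at hc4
      · exact absurd hc4 (by decide)
      · intro i hi
        have hi' := hi
        simp only [kq, testBit_mk, Bool.and_eq_true, decide_eq_true_eq, Bool.not_eq_true'] at hi'
        have hF := h11 i hi'.1.1 (by omega)
        rw [hi'.2] at hF
        have hor : (F2 f21 i || F3 f12 i) = true := by
          cases hb : (F2 f21 i || F3 f12 i)
          · rw [hb] at hF; exact absurd hF (by decide)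
          · rfl
        rw [Bool.or_eq_true] at hor
        simp only [Nat.testBit_or, testBit_mk, Bool.or_eq_true, Bool.and_eq_true,
          decide_eq_true_eq]
        rcases hor with hor | hor
        · left; exact ⟨⟨hi'.1.1, hi'.1.2⟩, P2_sound k21 hor⟩
        · right; exact ⟨⟨hi'.1.1, hi'.1.2⟩, P3_sound k12 hor⟩
      · intro i hi1 hi2
        simp only [testBit_mk, Bool.and_eq_true, decide_eq_true_eq] at hi1
        have := h11 i hi1.1.1 (by omega)
        rw [C3_sound k12 hi1.2, Bool.or_true] at this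
        rw [k11.1 i hi2] at this
        exact absurd this (by decide)

end Pool.Agent.helper93.GS
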