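import Pool.Agent.helper93.GS.Bound

open Filter Topology

namespace Pool.Agent.helper93.GS

/-- `(log_64 n + 1) / n` tends to zero -/
lemma log_div_tendsto :
    Tendsto (fun n : ℕ => ((Nat.log 64 n : ℝ) + 1) / n) atTop (𝓝 0) := by
  have h1 : Tendsto (fun n : ℕ => (Real.log n + 1) / n) atTop (𝓝 0) := by
    have e1 : Tendsto (fun x : ℝ => Real.log x / x) atTop (𝓝 0) := by
      have := Real.isLittleO_log_id_atTop.tendsto_div_nhds_zero
      simpa using this
    have e2 : Tendsto (fun n : ℕ => Real.log n / (n : ℝ)) atTop (𝓝 0) :=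
      e1.comp tendsto_natCast_atTop_atTop
    have e3 : Tendsto (fun n : ℕ => (1 : ℝ) / n) atTop (𝓝 0) := tendsto_one_div_atTop_nhds_zero_nat
    have e4 := e2.add e3
    rw [add_zero] at e4
    refine e4.congr fun n => ?_
    ring
  refine squeeze_zero' (Eventually.of_forall fun n => by positivity) ?_ h1
  filter_upwards [eventually_ge_atTop 1] with n hn
  have hn0 : (0 : ℝ) < n := by exact_mod_cast hn
  have hlog : (Nat.log 64 n : ℝ) ≤ Real.log n := by
    have h64 : (64 : ℕ) ^ Nat.log 64 n ≤ n := Nat.pow_log_le_self 64 (by omega)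
    have h64' : ((64 : ℝ)) ^ Nat.log 64 n ≤ n := by exact_mod_cast h64
    have h2 : Real.log ((64 : ℝ) ^ Nat.log 64 n) ≤ Real.log n :=
      Real.log_le_log (by positivity) h64'
    rw [Real.log_pow] at h2
    have h3 : (1 : ℝ) ≤ Real.log 64 := by
      rw [Real.le_log_iff_exp_le (by norm_num)]
      have := Real.exp_one_lt_d9
      linarith
    have h4 : (0 : ℝ) ≤ Nat.log 64 n := Nat.cast_nonneg _
    nlinarith
  gcongr

section
variable {a : ℕ → ℕ} (h : IsGreedy a)
include h

lemma ratio_upper : ∀ᶠ n : ℕ in atTop, (count a n : ℝ) / n ≤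
    125 / 189 + 10 * (((Nat.log 64 n : ℝ) + 1) / n) := by
  filter_upwards [eventually_ge_atTop 1] with n hn
  have hn0 : (0 : ℝ) < n := by exact_mod_cast hn
  rw [div_le_iff₀ hn0]
  have := upper h n
  have e : (125 / 189 + 10 * (((Nat.log 64 n : ℝ) + 1) / n)) * n =
      125 / 189 * n + 10 * (Nat.log 64 n + 1) := by
    field_simp
  rw [e]
  exact this

lemma ratio_lower : ∀ᶠ n : ℕ in atTop, 509 / 1134 - 20 * (((Nat.log 64 n : ℝ) + 1) / n) ≤
    (count a n : ℝ) / n := by
  filter_upwards [eventually_ge_atTop 1] with n hn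
  have hn0 : (0 : ℝ) < n := by exact_mod_cast hn
  rw [le_div_iff₀ hn0]
  have := lower h n
  have e : (509 / 1134 - 20 * (((Nat.log 64 n : ℝ) + 1) / n)) * n =
      509 / 1134 * n - 20 * (Nat.log 64 n + 1) := by
    field_simp
  rw [e]
  exact this

lemma limsup_le : limsup (fun n : ℕ => (count a n : ℝ) / n) atTop ≤ 125 / 189 := by
  have hT : Tendsto (fun n : ℕ => (125 / 189 : ℝ) + 10 * (((Nat.log 64 n : ℝ) + 1) / n)) atTop
      (𝓝 (125 / 189)) := by
    have := (log_div_tendsto.const_mul 10).const_add (125 / 189 : ℝ)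
    simpa using this
  have h1 : limsup (fun n : ℕ => (count a n : ℝ) / n) atTop ≤
      limsup (fun n : ℕ => (125 / 189 : ℝ) + 10 * (((Nat.log 64 n : ℝ) + 1) / n)) atTop := by
    refine limsup_le_limsup (ratio_upper h) ?_ hT.isBoundedUnder_le
    exact IsBoundedUnder.isCoboundedUnder_le
      ⟨0, by
        rw [eventually_map]
        exact Eventually.of_forall fun n => by positivity⟩
  rw [hT.limsup_eq] at h1
  exact h1

lemma le_liminf : 509 / 1134 ≤ liminf (fun n : ℕ => (count a n : ℝ) / n) atTop := by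
  have hT : Tendsto (fun n : ℕ => (509 / 1134 : ℝ) - 20 * (((Nat.log 64 n : ℝ) + 1) / n)) atTop
      (𝓝 (509 / 1134)) := by
    have := (log_div_tendsto.const_mul 20).const_sub (509 / 1134 : ℝ)
    simpa using this
  have hU : Tendsto (fun n : ℕ => (125 / 189 : ℝ) + 10 * (((Nat.log 64 n : ℝ) + 1) / n)) atTop
      (𝓝 (125 / 189)) := by
    have := (log_div_tendsto.const_mul 10).const_add (125 / 189 : ℝ)
    simpa using this
  have hb : IsBoundedUnder (· ≤ ·) atTop (fun n : ℕ => (count a n : ℝ) / n) :=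
    hU.isBoundedUnder_le.mono_le (ratio_upper h)
  have h1 : liminf (fun n : ℕ => (509 / 1134 : ℝ) - 20 * (((Nat.log 64 n : ℝ) + 1) / n)) atTop ≤
      liminf (fun n : ℕ => (count a n : ℝ) / n) atTop := by
    refine liminf_le_liminf (ratio_lower h) hT.isBoundedUnder_ge ?_
    exact hb.isCoboundedUnder_ge
  rw [hT.liminf_eq] at h1
  exact h1

end

end Pool.Agent.helper93.GS
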