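import Pool.Agent.helper93.GS.Basic
import Pool.Agent.helper93.GS.Finite

namespace Pool.Agent.helper93.GS

/-- `x` is a sum of three, but not of two consecutive terms -/
def V (a : ℕ → ℕ) (x : ℕ) : Prop := S3 a x ∧ ¬ S2 a x

open Classical in
/-- membership seen from the base point `B` -/
noncomputable def X (a : ℕ → ℕ) (B : ℕ) : ℕ → Bool := fun i => decide (∃ k, a k = B + i)

open Classical in
lemma X_true {a : ℕ → ℕ} {B i : ℕ} : X a B i = true ↔ ∃ k, a k = B + i := by
  unfold X; rw [decide_eq_true_eq]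

open Classical in
lemma X_false {a : ℕ → ℕ} {B i : ℕ} : X a B i = false ↔ ¬ ∃ k, a k = B + i := by
  unfold X; rw [decide_eq_false_iff_not]

lemma pr_iff {f : ℕ → Bool} {s d : ℕ} (hd1 : 1 ≤ d) (hd4 : d ≤ 4) :
    pr f (fun i => !f i) s d = true ↔
      f s = true ∧ f (s + d) = true ∧ ∀ e, 1 ≤ e → e < d → f (s + e) = false := by
  unfold pr
  simp only [Bool.and_eq_true, Bool.or_eq_true, Nat.ble_eq, Bool.not_eq_true']
  constructor
  · rintro ⟨⟨⟨⟨h1, h2⟩, h3⟩, h4⟩, h5⟩
    refine ⟨h1, h2, fun e he1 he2 => ?_⟩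
    have : e = 1 ∨ e = 2 ∨ e = 3 := by omega
    rcases this with rfl | rfl | rfl
    · rcases h3 with h3 | h3
      · omega
      · exact h3
    · rcases h4 with h4 | h4
      · omega
      · exact h4
    · rcases h5 with h5 | h5
      · omega
      · exact h5
  · rintro ⟨h1, h2, h3⟩
    refine ⟨⟨⟨⟨h1, h2⟩, ?_⟩, ?_⟩, ?_⟩
    · by_cases hd : d ≤ 1
      · left; exact hd
      · right; exact h3 1 (by omega) (by omega)
    · by_cases hd : d ≤ 2
      · left; exact hd
      · right; exact h3 2 (by omega) (by omega)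
    · by_cases hd : d ≤ 3
      · left; exact hd
      · right; exact h3 3 (by omega) (by omega)

section
variable {a : ℕ → ℕ} (h : IsGreedy a)
include h

lemma pr_X {B s d : ℕ} (hd1 : 1 ≤ d) (hd4 : d ≤ 4) :
    pr (X a B) (fun i => !X a B i) s d = true ↔
      ∃ k, a k = B + s ∧ a (k + 1) = B + s + d := by
  rw [pr_iff hd1 hd4]
  have hm := mono h
  constructor
  · rintro ⟨h1, h2, h3⟩
    obtain ⟨k, hk⟩ := X_true.1 h1
    obtain ⟨j, hj⟩ := X_true.1 h2
    refine ⟨k, hk, ?_⟩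
    have hkj : k < j := hm.lt_iff_lt.1 (by omega)
    have h4 : a (k + 1) ≤ a j := hm.monotone hkj
    have h5 := lt_succ h k
    by_contra hne
    have h6 := h3 (a (k + 1) - a k) (by omega) (by omega)
    exact X_false.1 h6 ⟨k + 1, by omega⟩
  · rintro ⟨k, hk, hk'⟩
    refine ⟨X_true.2 ⟨k, hk⟩, X_true.2 ⟨k + 1, by omega⟩, fun e he1 he2 => ?_⟩
    rw [X_false]
    rintro ⟨j, hj⟩
    have h1 : k < j := hm.lt_iff_lt.1 (by omega)
    have h2 : j < k + 1 := hm.lt_iff_lt.1 (by omega)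
    omega

lemma S2_loc {B t : ℕ} (ht : 4 ≤ t) : S2 a (2 * B + t) ↔ F2 (X a B) t = true := by
  unfold F2 s2
  rw [List.any_eq_true]
  constructor
  · rintro ⟨i, hi⟩
    have h1 := lt_succ h i
    have h2 := gap h i
    obtain ⟨d, hd⟩ : ∃ d, a (i + 1) = a i + d := ⟨a (i + 1) - a i, by omega⟩
    obtain ⟨s, hs⟩ : ∃ s, a i = B + s := ⟨a i - B, by omega⟩
    refine ⟨d, ?_, ?_⟩
    · have : d = 1 ∨ d = 2 ∨ d = 3 ∨ d = 4 := by omega
      simpa using this
    · rw [Bool.and_eq_true, Bool.and_eq_true]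
      have e1 : (t - d) / 2 = s := by omega
      refine ⟨⟨by rw [Nat.ble_eq]; omega, by rw [Nat.beq_eq]; omega⟩, ?_⟩
      rw [e1, pr_X h (by omega) (by omega)]
      exact ⟨i, hs, by omega⟩
  · rintro ⟨d, hd, hh⟩
    rw [Bool.and_eq_true, Bool.and_eq_true, Nat.ble_eq, Nat.beq_eq] at hh
    have hd' : d = 1 ∨ d = 2 ∨ d = 3 ∨ d = 4 := by simpa using hd
    have hpr := (pr_X h (by omega) (by omega)).1 hh.2
    obtain ⟨k, hk1, hk2⟩ := hpr
    exact ⟨k, by omega⟩

lemma S3_loc {B t : ℕ} (ht : 10 ≤ t) : S3 a (3 * B + t) ↔ F3 (X a B) t = true := by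
  unfold F3 s3
  rw [List.any_eq_true]
  constructor
  · rintro ⟨i, hi⟩
    have h1 := lt_succ h i
    have h2 := gap h i
    have h3 := lt_succ h (i + 1)
    have h4 := gap h (i + 1)
    rw [show i + 1 + 1 = i + 2 from rfl] at h3 h4
    obtain ⟨d, hd⟩ : ∃ d, a (i + 1) = a i + d := ⟨a (i + 1) - a i, by omega⟩
    obtain ⟨e, he⟩ : ∃ e, a (i + 2) = a (i + 1) + e := ⟨a (i + 2) - a (i + 1), by omega⟩
    obtain ⟨s, hs⟩ : ∃ s, a i = B + s := ⟨a i - B, by omega⟩
    refine ⟨d, ?_, ?_⟩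
    · have : d = 1 ∨ d = 2 ∨ d = 3 ∨ d = 4 := by omega
      simpa using this
    · rw [List.any_eq_true]
      refine ⟨e, ?_, ?_⟩
      · have : e = 1 ∨ e = 2 ∨ e = 3 ∨ e = 4 := by omega
        simpa using this
      · have e1 : (t - (2 * d + e)) / 3 = s := by omega
        rw [Bool.and_eq_true, Bool.and_eq_true, Bool.and_eq_true, e1]
        refine ⟨⟨⟨by rw [Nat.ble_eq]; omega, by rw [Nat.beq_eq]; omega⟩, ?_⟩, ?_⟩
        · rw [pr_X h (by omega) (by omega)]
          exact ⟨i, hs, by omega⟩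
        · rw [pr_X h (by omega) (by omega)]
          exact ⟨i + 1, by omega, by rw [show i + 1 + 1 = i + 2 from rfl]; omega⟩
  · rintro ⟨d, hd, hh⟩
    rw [List.any_eq_true] at hh
    obtain ⟨e, he, hh⟩ := hh
    rw [Bool.and_eq_true, Bool.and_eq_true, Bool.and_eq_true, Nat.ble_eq, Nat.beq_eq] at hh
    have hd' : d = 1 ∨ d = 2 ∨ d = 3 ∨ d = 4 := by simpa using hd
    have he' : e = 1 ∨ e = 2 ∨ e = 3 ∨ e = 4 := by simpa using he
    have hpr1 := (pr_X h (by omega) (by omega)).1 hh.1.2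
    have hpr2 := (pr_X h (by omega) (by omega)).1 hh.2
    obtain ⟨k, hk1, hk2⟩ := hpr1
    obtain ⟨j, hj1, hj2⟩ := hpr2
    have hkj : k + 1 = j := (mono h).injective (by omega)
    subst hkj
    exact ⟨k, by rw [show k + 1 + 1 = k + 2 from rfl] at hj2; omega⟩

lemma four_X {B t : ℕ} (ht : 1 ≤ t) :
    X a B t = true ∨ X a B (t + 1) = true ∨ X a B (t + 2) = true ∨ X a B (t + 3) = true := by
  simp only [X_true]
  exact four h (x := B + t) (by omega)

lemma X_eq {B t : ℕ} (ht : 1 ≤ t) {b c : Bool} (hb : S2 a (B + t) ↔ b = true)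
    (hc : S3 a (B + t) ↔ c = true) : X a B t = !(b || c) := by
  have hmem := mem_iff h (x := B + t) (by omega)
  rw [hb, hc] at hmem
  cases b <;> cases c <;> simp only [Bool.or_self, Bool.or_true, Bool.or_false,
    Bool.not_true, Bool.not_false] <;> first
    | (rw [X_true, hmem]; simp)
    | (rw [X_false, hmem]; simp)

/-- without violations the level is the complement of the pair sums -/
lemma X_eq' {B t : ℕ} (ht : 1 ≤ t) (hV : ¬ V a (B + t)) {b : Bool}
    (hb : S2 a (B + t) ↔ b = true) : X a B t = !b := by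
  have hmem := mem_iff h (x := B + t) (by omega)
  unfold V at hV
  cases hbb : b
  · rw [hbb] at hb
    rw [show (!false) = true from rfl, X_true, hmem]
    have h2 : ¬ S2 a (B + t) := by rw [hb]; decide
    exact ⟨h2, fun h3 => hV ⟨h3, h2⟩⟩
  · rw [hbb] at hb
    rw [show (!true) = false from rfl, X_false, hmem]
    exact fun hh => hh.1 (hb.2 rfl)

lemma iso_X {B t : ℕ} (ht : 1 ≤ t) (h0 : ¬ V a (B + t)) (h1 : ¬ V a (B + (t + 1))) :
    X a B t = true ∨ X a B (t + 1) = true := by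
  by_contra hcon
  rw [not_or, Bool.not_eq_true, Bool.not_eq_true, X_false, X_false] at hcon
  obtain ⟨c0, c1⟩ := hcon
  have c0' : ∀ k, a k ≠ B + t := fun k hk => c0 ⟨k, hk⟩
  have c1' : ∀ k, a k ≠ B + (t + 1) := fun k hk => c1 ⟨k, hk⟩
  have s0 : S2 a (B + t) := by
    rcases compl h (by omega) c0' with s | s
    · exact s
    · by_contra hs; exact h0 ⟨s, hs⟩
  have s1 : S2 a (B + (t + 1)) := by
    rcases compl h (by omega) c1' with s | s
    · exact s
    · by_contra hs; exact h1 ⟨s, hs⟩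
  exact S2_succ h s0 s1

/-- every quadruple of windows contains a sum of three consecutive terms that is not a
sum of two consecutive terms -/
theorem window (m : ℕ) : ∃ v, V a v ∧
    ((36 * m + 67 ≤ v ∧ v ≤ 36 * m + 89) ∨ (12 * m + 20 ≤ v ∧ v ≤ 12 * m + 31) ∨
      (9 * m + 16 ≤ v ∧ v ≤ 9 * m + 23) ∨ (3 * m + 7 ≤ v ∧ v ≤ 3 * m + 9)) := by
  by_contra hcon
  push Not at hcon
  have hV36 : ∀ t, 67 ≤ t → t ≤ 89 → ¬ V a (36 * m + t) := fun t h1 h2 hv => by
    have := (hcon _ hv).1 (by omega); omega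
  have hV12 : ∀ t, 20 ≤ t → t ≤ 31 → ¬ V a (12 * m + t) := fun t h1 h2 hv => by
    have := (hcon _ hv).2.1 (by omega); omega
  have hV9 : ∀ t, 16 ≤ t → t ≤ 23 → ¬ V a (9 * m + t) := fun t h1 h2 hv => by
    have := (hcon _ hv).2.2.1 (by omega); omega
  have hV3 : ∀ t, 7 ≤ t → t ≤ 9 → ¬ V a (3 * m + t) := fun t h1 h2 hv => by
    have := (hcon _ hv).2.2.2 (by omega); omega
  refine fin_contra (X a (6 * m)) (X a (9 * m)) (X a (3 * m)) (X a (2 * m)) (X a (18 * m))
    (X a (12 * m)) ?_ ?_ ?_ ?_ ?_ ?_ ?_ ?_ ?_ ?_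
  · exact fun t h1 _ => four_X h (by omega)
  · exact fun t h1 _ => four_X h (by omega)
  · exact fun t h1 _ => four_X h (by omega)
  · exact fun t h1 h2 => iso_X h (by omega) (hV9 t h1 (by omega)) (hV9 (t + 1) (by omega) (by omega))
  · exact fun t h1 h2 => iso_X h (by omega) (hV3 t h1 (by omega)) (hV3 (t + 1) (by omega) (by omega))
  · intro t h1 h2
    refine X_eq h (by omega) ?_ ?_
    · rw [show 6 * m + t = 2 * (3 * m) + t by ring]
      exact S2_loc h (by omega)
    · rw [show 6 * m + t = 3 * (2 * m) + t by ring]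
      exact S3_loc h (by omega)
  · intro t h1 h2 h3
    rw [X_false]
    rintro ⟨k, hk⟩
    refine not_S3 h k ?_
    rw [hk, show 9 * m + t = 3 * (3 * m) + t by ring]
    exact (S3_loc h (by omega)).2 h3
  · intro t h1 h2
    refine X_eq h (by omega) ?_ ?_
    · rw [show 18 * m + t = 2 * (9 * m) + t by ring]
      exact S2_loc h (by omega)
    · rw [show 18 * m + t = 3 * (6 * m) + t by ring]
      exact S3_loc h (by omega)
  · intro t h1 h2
    refine X_eq' h (by omega) (hV12 t h1 h2) ?_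
    rw [show 12 * m + t = 2 * (6 * m) + t by ring]
    exact S2_loc h (by omega)
  · intro t h1 h2 h3
    have hs3 : S3 a (36 * m + t) := by
      rw [show 36 * m + t = 3 * (12 * m) + t by ring]
      exact (S3_loc h (by omega)).2 h3
    have hs2 : S2 a (36 * m + t) := by
      by_contra hs
      exact hV36 t h1 h2 ⟨hs3, hs⟩
    rw [show 36 * m + t = 2 * (18 * m) + t by ring] at hs2
    exact (S2_loc h (by omega)).1 hs2

end

end Pool.Agent.helper93.GS
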