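import Mathlib

/-!
Bit masks for windows of a set of integers, and the sums of two or three consecutive
elements inside a window.
-/

namespace Pool.Agent.helper93.GS

/-- `s` and `s + d` satisfy `p` and all integers strictly between satisfy `q` -/
def pr (p q : ℕ → Bool) (s d : ℕ) : Bool :=
  p s && p (s + d) && (Nat.ble d 1 || q (s + 1)) && (Nat.ble d 2 || q (s + 2)) &&
    (Nat.ble d 3 || q (s + 3))

/-- `t` is a sum of a consecutive pair -/
def s2 (p q : ℕ → Bool) (t : ℕ) : Bool :=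
  [1, 2, 3, 4].any fun d => Nat.ble d t && Nat.beq ((t - d) % 2) 0 && pr p q ((t - d) / 2) d

/-- `t` is a sum of a consecutive triple -/
def s3 (p q : ℕ → Bool) (t : ℕ) : Bool :=
  [1, 2, 3, 4].any fun d => [1, 2, 3, 4].any fun e =>
    Nat.ble (2 * d + e) t && Nat.beq ((t - (2 * d + e)) % 3) 0 &&
      pr p q ((t - (2 * d + e)) / 3) d && pr p q ((t - (2 * d + e)) / 3 + d) e

/-- the mask of `p` on `lo, ..., lo + k - 1` -/
def mk (p : ℕ → Bool) : ℕ → ℕ → ℕ
  | 0, _ => 0
  | k + 1, lo => mk p k (lo + 1) ||| (bif p lo then 2 ^ lo else 0)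

/-- all pairs (mask of ones, mask of zeros) on `lo, ..., lo + k - 1` -/
def en : ℕ → ℕ → List (ℕ × ℕ)
  | 0, _ => [(0, 0)]
  | k + 1, lo => (en k (lo + 1)).flatMap fun p => [(p.1 ||| 2 ^ lo, p.2), (p.1, p.2 ||| 2 ^ lo)]

lemma testBit_mk (p : ℕ → Bool) (k lo i : ℕ) :
    (mk p k lo).testBit i = (decide (lo ≤ i) && decide (i < lo + k) && p i) := by
  induction k generalizing lo with
  | zero =>
    simp only [mk, Nat.zero_testBit]
    by_cases h1 : lo ≤ i
    · have : ¬ i < lo + 0 := by omega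
      simp [this]
    · simp [h1]
  | succ k ih =>
    simp only [mk, Nat.testBit_or, ih]
    have h2 : (bif p lo then 2 ^ lo else 0).testBit i = (decide (lo = i) && p i) := by
      by_cases hlo : lo = i
      · subst hlo
        cases p lo <;> simp [Nat.testBit_two_pow_self]
      · cases hp : p lo <;> simp [Nat.testBit_two_pow, hlo]
    rw [h2]
    by_cases h0 : lo = i
    · subst h0
      have e1 : ¬ lo + 1 ≤ lo := by omega
      have e2 : lo < lo + (k + 1) := by omega
      simp [e1, e2]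
    · by_cases h1 : lo ≤ i
      · have e1 : lo + 1 ≤ i := by omega
        by_cases h3 : i < lo + (k + 1)
        · have e2 : i < lo + 1 + k := by omega
          simp [h0, h1, e1, h3, e2]
        · have e2 : ¬ i < lo + 1 + k := by omega
          simp [h0, h3, e2]
      · have e1 : ¬ lo + 1 ≤ i := by omega
        simp [h0, h1, e1]

lemma mk_mem_en (p : ℕ → Bool) (k lo : ℕ) :
    (mk p k lo, mk (fun i => !p i) k lo) ∈ en k lo := by
  induction k generalizing lo with
  | zero => simp [mk, en]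
  | succ k ih =>
    simp only [mk, en, List.mem_flatMap]
    refine ⟨_, ih (lo + 1), ?_⟩
    cases hp : p lo <;> simp

/-! ### knowledge -/

/-- the pair of masks `p` (known ones, known zeros) is correct for `f` -/
def Kn (p : ℕ × ℕ) (f : ℕ → Bool) : Prop :=
  (∀ i, p.1.testBit i = true → f i = true) ∧ (∀ i, p.2.testBit i = true → f i = false)

/-- certain pair sum -/
def C2 (p : ℕ × ℕ) (t : ℕ) : Bool := s2 p.1.testBit p.2.testBit t
/-- possible pair sum -/
def P2 (p : ℕ × ℕ) (t : ℕ) : Bool := s2 (fun i => !p.2.testBit i) (fun i => !p.1.testBit i) t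
/-- certain triple sum -/
def C3 (p : ℕ × ℕ) (t : ℕ) : Bool := s3 p.1.testBit p.2.testBit t
/-- possible triple sum -/
def P3 (p : ℕ × ℕ) (t : ℕ) : Bool := s3 (fun i => !p.2.testBit i) (fun i => !p.1.testBit i) t

/-- the real thing -/
def F2 (f : ℕ → Bool) (t : ℕ) : Bool := s2 f (fun i => !f i) t
def F3 (f : ℕ → Bool) (t : ℕ) : Bool := s3 f (fun i => !f i) t

lemma pr_mono {p q p' q' : ℕ → Bool} (hp : ∀ i, p i = true → p' i = true)
    (hq : ∀ i, q i = true → q' i = true) (s d : ℕ) (h : pr p q s d = true) :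
    pr p' q' s d = true := by
  unfold pr at *
  simp only [Bool.and_eq_true, Bool.or_eq_true] at *
  obtain ⟨⟨⟨⟨h1, h2⟩, h3⟩, h4⟩, h5⟩ := h
  exact ⟨⟨⟨⟨hp _ h1, hp _ h2⟩, h3.imp id (hq _)⟩, h4.imp id (hq _)⟩, h5.imp id (hq _)⟩

lemma s2_mono {p q p' q' : ℕ → Bool} (hp : ∀ i, p i = true → p' i = true)
    (hq : ∀ i, q i = true → q' i = true) (t : ℕ) (h : s2 p q t = true) :
    s2 p' q' t = true := by
  unfold s2 at *
  rw [List.any_eq_true] at *
  obtain ⟨d, hd, h⟩ := h
  refine ⟨d, hd, ?_⟩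
  simp only [Bool.and_eq_true] at *
  exact ⟨h.1, pr_mono hp hq _ _ h.2⟩

lemma s3_mono {p q p' q' : ℕ → Bool} (hp : ∀ i, p i = true → p' i = true)
    (hq : ∀ i, q i = true → q' i = true) (t : ℕ) (h : s3 p q t = true) :
    s3 p' q' t = true := by
  unfold s3 at *
  rw [List.any_eq_true] at *
  obtain ⟨d, hd, h⟩ := h
  refine ⟨d, hd, ?_⟩
  rw [List.any_eq_true] at *
  obtain ⟨e, he, h⟩ := h
  refine ⟨e, he, ?_⟩
  simp only [Bool.and_eq_true] at *
  exact ⟨⟨h.1.1, pr_mono hp hq _ _ h.1.2⟩, pr_mono hp hq _ _ h.2⟩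

lemma C2_sound {p : ℕ × ℕ} {f : ℕ → Bool} (h : Kn p f) {t : ℕ} (ht : C2 p t = true) :
    F2 f t = true :=
  s2_mono h.1 (fun i hi => by rw [h.2 i hi]; rfl) t ht

lemma C3_sound {p : ℕ × ℕ} {f : ℕ → Bool} (h : Kn p f) {t : ℕ} (ht : C3 p t = true) :
    F3 f t = true :=
  s3_mono h.1 (fun i hi => by rw [h.2 i hi]; rfl) t ht

lemma kn_p {p : ℕ × ℕ} {f : ℕ → Bool} (h : Kn p f) (i : ℕ) (hi : f i = true) :
    (!p.2.testBit i) = true := by
  cases hb : p.2.testBit i
  · rfl
  · rw [h.2 i hb] at hi; exact absurd hi (by decide)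

lemma kn_q {p : ℕ × ℕ} {f : ℕ → Bool} (h : Kn p f) (i : ℕ) (hi : (!f i) = true) :
    (!p.1.testBit i) = true := by
  cases hb : p.1.testBit i
  · rfl
  · rw [h.1 i hb] at hi; exact absurd hi (by decide)

lemma P2_sound {p : ℕ × ℕ} {f : ℕ → Bool} (h : Kn p f) {t : ℕ} (ht : F2 f t = true) :
    P2 p t = true :=
  s2_mono (kn_p h) (kn_q h) t ht

lemma P3_sound {p : ℕ × ℕ} {f : ℕ → Bool} (h : Kn p f) {t : ℕ} (ht : F3 f t = true) :
    P3 p t = true :=
  s3_mono (kn_p h) (kn_q h) t ht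

lemma kn_mk (f : ℕ → Bool) (k lo : ℕ) : Kn (mk f k lo, mk (fun i => !f i) k lo) f := by
  constructor
  · intro i hi
    simp only [testBit_mk, Bool.and_eq_true] at hi
    exact hi.2
  · intro i hi
    simp only [testBit_mk, Bool.and_eq_true] at hi
    simpa using hi.2

end Pool.Agent.helper93.GS
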