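import Pool.Agent.helper93.GS.Density

open Filter Topology

namespace Pool.Agent.helper93.GS

section
variable {a : ℕ → ℕ} (h : IsGreedy a)
include h

/-- an eventual lower bound of the counting function has slope at most `59 / 90` -/
lemma slope_le {x : ℝ} (hx : ∀ᶠ n : ℕ in atTop, x * n ≤ count a n) : x ≤ 59 / 90 := by
  have E : ∀ α β : ℕ, 1 ≤ α → ∀ᶠ k : ℕ in atTop,
      x * ((α * k + β : ℕ) : ℝ) ≤ count a (α * k + β) := fun α β hα =>
    (lin_atTop (β := β) hα).eventually hx
  have hle : ∀ᶠ k : ℕ in atTop, x * (180 + 141 * (1 / (k : ℝ))) ≤ 118 + 98 * (1 / (k : ℝ)) := by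
    filter_upwards [eventually_ge_atTop 1, E 72 54 (by norm_num), E 36 27 (by norm_num),
      E 24 20 (by norm_num), E 12 10 (by norm_num), E 18 14 (by norm_num), E 9 7 (by norm_num),
      E 6 6 (by norm_num), E 3 3 (by norm_num)] with k hk e1 e2 e3 e4 e5 e6 e7 e8
    have hk0 : (0 : ℝ) < k := by exact_mod_cast hk
    have m0 := many' h (2 * k)
    have v1 := vc_zero h (72 * k + 54)
    have v2 := vc_zero h (24 * k + 20)
    have v3 := vc_zero h (18 * k + 14)
    have v4 := vc_zero h (6 * k + 6)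
    have vm : ∀ {x y : ℕ}, x ≤ y → vc a 0 x ≤ vc a 0 y := by
      classical
      intro x y hxy
      unfold vc
      refine Finset.card_le_card (Finset.filter_subset_filter _ ?_)
      exact Finset.Ioc_subset_Ioc_right hxy
    have w1 : vc a 0 (36 * (2 * k) + 53) ≤ vc a 0 (72 * k + 54) := vm (by omega)
    have w2 : vc a 0 (12 * (2 * k) + 19) ≤ vc a 0 (24 * k + 20) := vm (by omega)
    have w3 : vc a 0 (9 * (2 * k) + 14) ≤ vc a 0 (18 * k + 14) := vm (by omega)
    have w4 : vc a 0 (3 * (2 * k) + 6) ≤ vc a 0 (6 * k + 6) := vm (by omega)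
    rw [show (72 * k + 54) / 2 = 36 * k + 27 by omega] at v1
    rw [show (24 * k + 20) / 2 = 12 * k + 10 by omega] at v2
    rw [show (18 * k + 14) / 2 = 9 * k + 7 by omega] at v3
    rw [show (6 * k + 6) / 2 = 3 * k + 3 by omega] at v4
    have hsum : count a (72 * k + 54) + count a (36 * k + 27) + count a (24 * k + 20) +
        count a (12 * k + 10) + count a (18 * k + 14) + count a (9 * k + 7) +
        count a (6 * k + 6) + count a (3 * k + 3) ≤ 118 * k + 98 := by omega
    have hsum' : (count a (72 * k + 54) : ℝ) + count a (36 * k + 27) + count a (24 * k + 20) +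
        count a (12 * k + 10) + count a (18 * k + 14) + count a (9 * k + 7) +
        count a (6 * k + 6) + count a (3 * k + 3) ≤ 118 * k + 98 := by exact_mod_cast hsum
    push_cast at e1 e2 e3 e4 e5 e6 e7 e8
    have f1 : x * (180 * k + 141) ≤ 118 * k + 98 := by linarith
    have g1 : x * (180 + 141 * (1 / (k : ℝ))) = x * (180 * k + 141) / k := by field_simp
    have g2 : 118 + 98 * (1 / (k : ℝ)) = (118 * k + 98) / k := by field_simp
    rw [g1, g2]
    gcongr
  have t1 : Tendsto (fun k : ℕ => x * (180 + 141 * (1 / (k : ℝ)))) atTop (𝓝 (x * 180)) := by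
    have := ((tendsto_one_div_atTop_nhds_zero_nat (𝕜 := ℝ)).const_mul 141).const_add 180
    have := this.const_mul x
    simpa using this
  have t2 : Tendsto (fun k : ℕ => 118 + 98 * (1 / (k : ℝ))) atTop (𝓝 118) := by
    have := ((tendsto_one_div_atTop_nhds_zero_nat (𝕜 := ℝ)).const_mul 98).const_add 118
    simpa using this
  have := le_of_tendsto_of_tendsto t1 t2 hle
  linarith

/-- an eventual upper bound of the counting function has slope at least `6 / 11` -/
lemma slope_ge {x : ℝ} (hx : ∀ᶠ n : ℕ in atTop, (count a n : ℝ) ≤ x * n) : 6 / 11 ≤ x := by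
  have E : ∀ α β : ℕ, 1 ≤ α → ∀ᶠ k : ℕ in atTop,
      (count a (α * k + β) : ℝ) ≤ x * ((α * k + β : ℕ) : ℝ) := fun α β hα =>
    (lin_atTop (β := β) hα).eventually hx
  obtain ⟨k, hk, e1, e2, e3⟩ := ((eventually_ge_atTop 1).and ((E 6 0 (by norm_num)).and
    ((E 3 0 (by norm_num)).and (E 2 0 (by norm_num))))).exists
  have hk0 : (0 : ℝ) < k := by exact_mod_cast hk
  have hs := lower_step h (6 * k)
  rw [show 6 * k / 2 = 3 * k by omega, show 6 * k / 3 = 2 * k by omega] at hs
  have hs' : (6 : ℝ) * k ≤ count a (6 * k) + count a (3 * k) + count a (2 * k) := by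
    exact_mod_cast hs
  push_cast at e1 e2 e3
  simp only [add_zero] at e1 e2 e3
  have : (6 : ℝ) * k ≤ x * (11 * k) := by linarith
  have h2 : (6 - 11 * x) * (k : ℝ) ≤ 0 := by linarith
  by_contra hcon
  rw [not_le] at hcon
  have : 0 < (6 - 11 * x) * (k : ℝ) := mul_pos (by linarith) hk0
  linarith

lemma ratio_bdd : IsBoundedUnder (· ≤ ·) atTop (fun n : ℕ => (count a n : ℝ) / n) := by
  have hU : Tendsto (fun n : ℕ => (125 / 189 : ℝ) + 10 * (((Nat.log 64 n : ℝ) + 1) / n)) atTop
      (𝓝 (125 / 189)) := by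
    have := (log_div_tendsto.const_mul 10).const_add (125 / 189 : ℝ)
    simpa using this
  exact hU.isBoundedUnder_le.mono_le (ratio_upper h)

lemma ratio_bdd' : IsBoundedUnder (· ≥ ·) atTop (fun n : ℕ => (count a n : ℝ) / n) :=
  ⟨0, by
    rw [eventually_map]
    exact Eventually.of_forall fun n => by positivity⟩

theorem liminf_le : liminf (fun n : ℕ => (count a n : ℝ) / n) atTop ≤ 59 / 90 := by
  by_contra hcon
  rw [not_le] at hcon
  obtain ⟨x, hx1, hx2⟩ := _root_.exists_between hcon
  have h1 := eventually_lt_of_lt_liminf hx2 (ratio_bdd' h)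
  have h2 : x ≤ 59 / 90 := by
    refine slope_le h ?_
    filter_upwards [h1, eventually_ge_atTop 1] with n hn hn1
    have hn0 : (0 : ℝ) < n := by exact_mod_cast hn1
    rw [lt_div_iff₀ hn0] at hn
    exact hn.le
  linarith

theorem le_limsup : 6 / 11 ≤ limsup (fun n : ℕ => (count a n : ℝ) / n) atTop := by
  by_contra hcon
  rw [not_le] at hcon
  obtain ⟨x, hx1, hx2⟩ := _root_.exists_between hcon
  have h1 := eventually_lt_of_limsup_lt hx1 (ratio_bdd h)
  have h2 : 6 / 11 ≤ x := by
    refine slope_ge h ?_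
    filter_upwards [h1, eventually_ge_atTop 1] with n hn hn1
    have hn0 : (0 : ℝ) < n := by exact_mod_cast hn1
    rw [div_lt_iff₀ hn0] at hn
    exact hn.le
  linarith

end

end Pool.Agent.helper93.GS
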